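import Mathlib

set_option autoImplicit false

namespace Pool.Agent.Results.MP_723ccc_gt.Tightness

open Set Topology Filter TopologicalSpace

/-- the level `sp n` -/
def sp {X V : Type} [AddCommGroup V] [Module ℝ V] (i : X → V) (n : ℕ) : Set V :=
  {v | ∃ (l : Fin n → ℝ) (x : Fin n → X), (∀ j, l j ∈ Icc (-(n : ℝ)) n) ∧ v = ∑ j, l j • i (x j)}

/-- countable tightness -/
def CT (Z : Type) [TopologicalSpace Z] : Prop :=
  ∀ A : Set Z, closure A = ⋃ B ∈ {B : Set Z | B ⊆ A ∧ B.Countable}, closure B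

lemma sepset (X : Type) [MetricSpace X] (h : ¬ SecondCountableTopology X) :
    ∃ ε > (0 : ℝ), ∃ D : Set X, ¬ D.Countable ∧ D.Pairwise fun x y => ε ≤ dist x y := by
  by_contra H
  push Not at H
  refine h (Metric.secondCountable_of_almost_dense_set fun ε hε => ?_)
  obtain ⟨D, hD⟩ := zorn_subset {D : Set X | D.Pairwise fun x y => ε ≤ dist x y} fun c hc h =>
    ⟨⋃₀ c, (pairwise_sUnion h.directedOn).2 hc, fun _ => subset_sUnion_of_mem⟩
  refine ⟨D, by_contra fun h => H ε hε D h hD.prop, fun x => by_contra fun h => ?_⟩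
  push Not at h
  have : Std.Symm fun x y : X => ε ≤ dist x y := ⟨fun _ _ h => by rwa [dist_comm]⟩
  have hx : x ∈ D := hD.mem_of_prop_insert ((pairwise_insert_of_symm
    (r := fun x y => ε ≤ dist x y)).2 ⟨hD.prop, fun y hy _ => (h y hy).le⟩)
  have := h x hx
  rw [dist_self] at this
  linarith

theorem result (X V : Type) [TopologicalSpace X] [MetrizableSpace X] [AddCommGroup V] [Module ℝ V]
    [TopologicalSpace V] [IsTopologicalAddGroup V] [ContinuousSMul ℝ V] (i : X → V)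
    (hi : Continuous i)
    (hU : ∀ (E : Type) [AddCommGroup E] [Module ℝ E] [TopologicalSpace E] [IsTopologicalAddGroup E]
      [ContinuousSMul ℝ E] [T2Space E] (f : X → E), Continuous f →
      ∃! g : V →L[ℝ] E, ∀ x, g (i x) = f x)
    (h2 : CT (sp i 2)) : CT (sp i 4) := by
  classical
  let _ := metrizableSpaceMetric X
  by_cases hs : SecondCountableTopology X
  · intro A
    refine Subset.antisymm ?_ (iUnion₂_subset fun B hB => closure_mono hB.1)
    let p : (Fin 4 → Icc (-((4 : ℕ) : ℝ)) (4 : ℕ)) × (Fin 4 → X) → sp i 4 := fun q =>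
      ⟨∑ j, (q.1 j : ℝ) • i (q.2 j), _, _, fun j => (q.1 j).2, rfl⟩
    have hp : Continuous p := by fun_prop
    obtain ⟨B', b1, b3⟩ := exists_countable_dense ↥(p ⁻¹' A)
    obtain ⟨B, b1, b2, b3⟩ : ∃ B, B.Countable ∧ B ⊆ p ⁻¹' A ∧ p ⁻¹' A ⊆ closure B :=
      ⟨_, b1.image _, Subtype.coe_image_subset _ _, Subtype.dense_iff.1 b3⟩
    refine fun z hz => mem_iUnion₂.2 ⟨p '' B, ⟨image_subset_iff.2 b2, b1.image _⟩, ?_⟩
    refine closure_minimal ?_ isClosed_closure hz
    rintro ⟨_, l, x, hl, rfl⟩ h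
    exact image_closure_subset_closure_image hp ⟨(fun j => ⟨l j, hl j⟩, x), b3 h, rfl⟩
  obtain ⟨ε, hε, D, hD, hp⟩ := sepset X hs
  obtain ⟨T, hT, x, φ, hx, hφ⟩ : ∃ T : Type, Uncountable T ∧ ∃ (x : T → X) (φ : T → ℝ),
      (Pairwise fun a b => ε ≤ dist (x a) (x b)) ∧ Function.Injective φ := by
    rcases Function.Embedding.total D ℝ with ⟨⟨e⟩⟩ | ⟨⟨e⟩⟩
    · exact ⟨D, ⟨fun h => hD (countable_coe_iff.1 h)⟩, Subtype.val, e,
        fun a b h => hp a.2 b.2 (Subtype.coe_ne_coe.2 h), e.injective⟩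
    · exact ⟨ℝ, inferInstance, fun t => e t, id,
        fun a b h => hp (e a).2 (e b).2 (Subtype.coe_ne_coe.2 (e.injective.ne h)), fun _ _ h => h⟩
  let w : T → T → ℝ := fun a b => min 1 |φ a - φ b|
  have w0 : ∀ a b, 0 ≤ w a b := fun a b => le_min zero_le_one (abs_nonneg _)
  have w1 : ∀ a b, a ≠ b → 0 < w a b := fun a b h =>
    lt_min one_pos (abs_pos.2 (sub_ne_zero.2 (hφ.ne h)))
  let v : T × T → sp i 2 := fun q => ⟨w q.1 q.2 • i (x q.1) + w q.1 q.2 • i (x q.2),
    fun _ => w q.1 q.2, ![x q.1, x q.2], fun _ => ⟨by push_cast; linarith [w0 q.1 q.2],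
      (min_le_left _ _).trans (by norm_num)⟩, by simp⟩
  obtain ⟨t0⟩ : Nonempty T := inferInstance
  let z : sp i 2 := ⟨0, 0, fun _ => x t0, fun _ => by simp, by simp⟩
  have hz : z ∈ closure (v '' {q | q.1 ≠ q.2}) := by
    rw [mem_closure_iff_nhds]
    intro U hU
    obtain ⟨W, hW, hWU⟩ := (mem_nhds_subtype _ _ _).1 hU
    obtain ⟨W', h1, h2⟩ := exists_nhds_zero_half hW
    have : ∀ a, ∃ n : ℕ, ∀ t : ℝ, |t| < 1 / (n + 1) → t • i (x a) ∈ W' := by
      intro a
      have : Tendsto (fun t : ℝ => t • i (x a)) (𝓝 0) (𝓝 0) :=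
        Continuous.tendsto' (by fun_prop) _ _ (zero_smul _ _)
      obtain ⟨δ, d1, d2⟩ := Metric.mem_nhds_iff.1 (this h1)
      obtain ⟨n, hn⟩ := exists_nat_one_div_lt d1
      exact ⟨n, fun t ht => d2 (by simpa using ht.trans hn)⟩
    choose n hn using this
    obtain ⟨a, b, hab, e⟩ : ∃ a b, a ≠ b ∧ (n a, ⌊(n a + 1) * φ a⌋) = (n b, ⌊(n b + 1) * φ b⌋) := by
      by_contra H
      push Not at H
      exact not_countable (Function.Injective.countable
        (f := fun a => (n a, ⌊(n a + 1) * φ a⌋)) fun a b h => by_contra fun h' => H a b h' h)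
    obtain ⟨e1, e2⟩ := Prod.ext_iff.1 e
    dsimp only at e1 e2
    have : |w a b| < 1 / (n b + 1) := by
      rw [abs_of_nonneg (w0 a b), lt_div_iff₀ (by positivity)]
      have := Int.abs_sub_lt_one_of_floor_eq_floor e2
      rw [e1, ← mul_sub, abs_mul, abs_of_pos (by positivity)] at this
      nlinarith [min_le_right 1 |φ a - φ b|]
    exact ⟨_, hWU (h2 _ (hn a _ (by rwa [e1])) _ (hn b _ this)), (a, b), hab, rfl⟩
  rw [h2] at hz
  obtain ⟨B, ⟨b1, b2⟩, hz⟩ := mem_iUnion₂.1 hz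
  have : Nonempty (T × T) := ⟨(t0, t0)⟩
  obtain ⟨P, p1, rfl, p2⟩ : ∃ P ⊆ {q : T × T | q.1 ≠ q.2}, v '' P = B ∧ P.Countable := by
    choose! r r1 r2 using b1
    refine ⟨r '' B, image_subset_iff.2 r1, ?_, b2.image _⟩
    rw [image_image, image_congr r2, image_id']
  obtain ⟨u, hu⟩ := countable_iff_exists_subset_range.1 ((p2.image Prod.fst).union (p2.image Prod.snd))
  let c : T → ℝ := fun a => ∑ k ∈ Finset.range (Function.invFun u a), (w a (u k))⁻¹
  have c0 : ∀ a, 0 ≤ c a := fun a => Finset.sum_nonneg fun k _ => inv_nonneg.2 (w0 _ _)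
  have c1 : ∀ a b, b ∈ range u → Function.invFun u b < Function.invFun u a → (w a b)⁻¹ ≤ c a := by
    intro a b hb h
    have := Finset.single_le_sum (f := fun k => (w a (u k))⁻¹)
      (fun k _ => inv_nonneg.2 (w0 _ _)) (Finset.mem_range.2 h)
    rwa [Function.invFun_eq hb] at this
  let _ : TopologicalSpace T := ⊥
  have : DiscreteTopology T := ⟨rfl⟩
  obtain ⟨f, hf⟩ := (⟨c, continuous_of_discreteTopology⟩ : C(T, ℝ)).exists_extension'
    (Metric.isClosedEmbedding_of_pairwise_le_dist hε hx)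
  obtain ⟨g, hg, -⟩ := hU ℝ f f.continuous
  have hc : IsClosed {y : sp i 2 | 1 ≤ g y} := isClosed_le continuous_const (by fun_prop)
  have := closure_minimal (t := {y : sp i 2 | 1 ≤ g y}) ?_ hc hz
  · simp [z] at this
    linarith
  rintro _ ⟨⟨a, b⟩, hq, rfl⟩
  have ha : a ∈ range u := hu (Or.inl ⟨_, hq, rfl⟩)
  have hb : b ∈ range u := hu (Or.inr ⟨_, hq, rfl⟩)
  have hab : a ≠ b := p1 hq
  have fa : ∀ a, f (x a) = c a := congrFun hf
  simp only [mem_ofPred_eq, v, map_add, map_smul, hg, fa, smul_eq_mul, ← mul_add]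
  rw [← inv_mul_le_iff₀ (w1 a b hab), mul_one]
  rcases lt_trichotomy (Function.invFun u b) (Function.invFun u a) with h | h | h
  · linarith [c1 a b hb h, c0 b]
  · exact absurd (by rw [← Function.invFun_eq ha, ← h, Function.invFun_eq hb]) hab
  · have := c1 b a ha h
    rw [show w b a = w a b by simp only [w, abs_sub_comm]] at this
    linarith [c0 a]

end Pool.Agent.Results.MP_723ccc_gt.Tightness
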